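import Pool.Agent.Lib.MP_b1a3a4_al.MVS.H12.N1

/-!
# Module FINSTEP (6.5): finite quotients
-/

set_option linter.all false

namespace Pool.Agent.Lib.MP_b1a3a4_al.MVS.H12

open Finsupp

section nov

variable {k S Q : Type} [CommRing k] [Group S] [Group Q] {χ : Chr S} (N : NovRing k S χ)
  (π : S →* Q)

theorem V_delta (a : ℝ) (f : MonoidAlgebra k S) (hf : ∀ g ∈ f.coeff.support, a ≤ val χ g)
    (q : Q) : N.V a ((delta N.ι π f).coeff q) := by
  classical
  have h1 : f = ∑ g ∈ f.coeff.support, MonoidAlgebra.single g (f.coeff g) :=
    (MonoidAlgebra.sum_coeff_single f).symm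
  rw [h1, map_sum, MonoidAlgebra.coeff_sum, Finsupp.finset_sum_apply]
  apply V_sum
  intro g hg
  rw [delta_single, MonoidAlgebra.coeff_single, Finsupp.single_apply]
  split_ifs
  · exact N.V_mono _ _ _ (hf g hg) (N.V_ι _ _)
  · exact N.V_zero _

theorem bij_delta [Finite Q] {X : Type} [Finite X]
    (A : (X →₀ MonoidAlgebra k S) →ₗ[MonoidAlgebra k S] (X →₀ MonoidAlgebra k S))
    (hA : ∀ x, PosV χ (single x 1 - A (single x 1))) :
    Function.Bijective (bc (delta N.ι π) A) := by
  classical
  have := Fintype.ofFinite X
  have := Fintype.ofFinite Q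
  obtain ⟨δ, hδ, hpos⟩ := exists_pos χ (fun x => single x 1 - A (single x 1)) hA
  let B : Matrix (X × Q) (X × Q) N.R := fun x y =>
    (delta N.ι π ((single x.1 1 - A (single x.1 1) : X →₀ MonoidAlgebra k S) y.1)).coeff
      (x.2⁻¹ * y.2)
  have hB := bij_matrix N (X × Q) B δ hδ (fun x y => V_delta N π δ _ (hpos x.1 y.1) _)
  let e : (X →₀ MonoidAlgebra N.R Q) ≃ (X × Q → N.R) :=
    { toFun := fun z p => (z p.1).coeff p.2
      invFun := fun v => Finsupp.equivFunOnFinite.symm (fun x => MonoidAlgebra.ofCoeff
        (Finsupp.equivFunOnFinite.symm (fun q => v (x, q))))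
      left_inv := by
        intro z
        ext x : 1
        apply MonoidAlgebra.coeff_injective
        ext q
        simp [MonoidAlgebra.coeff_ofCoeff]
      right_inv := by
        intro v
        ext p
        simp [MonoidAlgebra.coeff_ofCoeff] }
  have e_apply : ∀ z p, e z p = (z p.1).coeff p.2 := fun _ _ => rfl
  have e_add : ∀ a b, e (a + b) = e a + e b := fun _ _ => rfl
  have key : ∀ z : X →₀ MonoidAlgebra N.R Q,
      e (bc (delta N.ι π) A z) = Matrix.vecMul (e z) (1 - B) := by
    intro z
    induction z using Finsupp.induction_linear with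
    | zero =>
      rw [map_zero]
      have : e 0 = 0 := rfl
      rw [this, Matrix.zero_vecMul]
    | add v w hv hw => rw [map_add, e_add, e_add, Matrix.add_vecMul, hv, hw]
    | single x r =>
      induction r using MonoidAlgebra.induction_linear with
      | zero =>
        have h0 : (single x (0 : MonoidAlgebra N.R Q)) = 0 := single_zero x
        have : e 0 = 0 := rfl
        rw [h0, map_zero, this, Matrix.zero_vecMul]
      | add a b ha hb =>
        rw [single_add, map_add, e_add, e_add, Matrix.add_vecMul, ha, hb]
      | single g r =>
        have h1 : e (single x (MonoidAlgebra.single g r)) = Pi.single (x, g) r := by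
          funext p
          obtain ⟨y, g'⟩ := p
          rw [e_apply, Finsupp.single_apply]
          by_cases hxy : x = y
          · subst hxy
            rw [if_pos rfl, MonoidAlgebra.coeff_single, Finsupp.single_apply]
            by_cases hg : g = g'
            · subst hg
              rw [if_pos rfl, Pi.single_eq_same]
            · rw [if_neg hg, Pi.single_eq_of_ne]
              intro h
              exact hg (Prod.ext_iff.1 h).2.symm
          · rw [if_neg hxy, Pi.single_eq_of_ne]
            · rfl
            · intro h
              exact hxy (Prod.ext_iff.1 h).1.symm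
        rw [h1]
        funext p
        obtain ⟨y, g'⟩ := p
        rw [bc_single, Matrix.single_vecMul]
        have h2 : (1 - B) (x, g) (y, g') =
            (delta N.ι π (A (single x 1) y)).coeff (g⁻¹ * g') := by
          simp only [B, Matrix.sub_apply, Finsupp.sub_apply, map_sub, MonoidAlgebra.coeff_sub]
          have h3 : (delta N.ι π ((single x 1 : X →₀ MonoidAlgebra k S) y)).coeff (g⁻¹ * g') =
              (1 : Matrix (X × Q) (X × Q) N.R) (x, g) (y, g') := by
            rw [Finsupp.single_apply, Matrix.one_apply]
            by_cases hxy : x = y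
            · subst hxy
              rw [if_pos rfl, map_one, MonoidAlgebra.one_def, MonoidAlgebra.coeff_single,
                Finsupp.single_apply]
              by_cases hg : g = g'
              · subst hg
                rw [if_pos (by simp), if_pos rfl]
              · rw [if_neg, if_neg]
                · intro h
                  exact hg (Prod.ext_iff.1 h).2
                · intro h
                  exact hg (eq_of_inv_mul_eq_one h.symm)
            · rw [if_neg hxy, map_zero, if_neg]
              · rfl
              · intro h
                exact hxy (Prod.ext_iff.1 h).1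
          rw [h3, sub_sub_cancel]
        change e _ (y, g') = r * (1 - B) (x, g) (y, g')
        rw [h2, e_apply, Finsupp.smul_apply, mp_apply, smul_eq_mul,
          MonoidAlgebra.coeff_single_mul_apply]
  have h4 : (bc (delta N.ι π) A : (X →₀ MonoidAlgebra N.R Q) → (X →₀ MonoidAlgebra N.R Q)) =
      e.symm ∘ (fun v => Matrix.vecMul v (1 - B)) ∘ e := by
    funext z
    rw [Function.comp_apply, Function.comp_apply, ← key, Equiv.symm_apply_apply]
  rw [h4]
  exact e.symm.bijective.comp (hB.comp e.bijective)

end nov

/-- Module FINSTEP. -/
theorem finstep (hR : RseqStatement) (hN2 : N2Statement) (hAug : AugStatement) :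
    FinStepStatement := by
  intro k S S' Q _ _ _ _ _ j π hses χ n F F' hF hF' hP
  obtain ⟨N, hN⟩ := hR k S' χ
  apply hN2 k S' χ N hN S j hses.inj n F hF
  rw [(hAug k S S' Q N.R j π hses N.ι F F' (n + 1)).1]
  obtain ⟨s, hs0, hs1⟩ := hP
  have fin0 := hF' 0 (Nat.zero_le n)
  refine exact_of_bij _ F'.d F'.isCx s n ?_ ?_
  · exact bij_delta N π _ hs0
  · intro q hq
    have := hF' (q + 1) hq
    apply bij_delta N π
    intro x
    have := hs1 q hq x
    rw [sub_sub] at this
    exact this

end Pool.Agent.Lib.MP_b1a3a4_al.MVS.H12
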