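import Pool.Agent.Lib.MP_b1a3a4_al.MVS.Interfaces

/-!
# Module N1 (2.3): push maps give exactness over the Novikov type ring
-/

set_option linter.all false

namespace Pool.Agent.Lib.MP_b1a3a4_al.MVS.H12

open Finsupp

/-- Push maps whose base change is bijective give exactness. -/
theorem exact_of_bij {Λ Γ : Type} [Ring Λ] [Ring Γ] (θ : Λ →+* Γ) {X : ℕ → Type} (d : Dif Λ X)
    (hd : IsCx d) (s : ∀ q : ℕ, (X q →₀ Λ) →ₗ[Λ] (X (q + 1) →₀ Λ)) (n : ℕ)
    (h0 : Function.Bijective (bc θ (d 0 ∘ₗ s 0)))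
    (h1 : ∀ q, q + 1 ≤ n → Function.Bijective (bc θ (d (q + 1) ∘ₗ s (q + 1) + s q ∘ₗ d q))) :
    ExactLT (bcD θ d) (n + 1) := by
  intro q hq z hz
  have hdd : ∀ q, bc θ (d q) ∘ₗ bc θ (d (q + 1)) = 0 := by
    intro q
    apply LinearMap.ext
    intro z
    exact bcD_isCx θ hd q z
  have inj : ∀ q, q + 1 ≤ n → ∀ z' : X (q + 1) →₀ Γ,
      bc θ (d q) (bc θ (s q) (bc θ (d q) z')) = 0 → bc θ (d q) z' = 0 := by
    intro q hq z' hz'
    rcases q with _ | q
    · apply h0.1
      rw [map_zero, bc_comp]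
      exact hz'
    · apply (h1 q (by omega)).1
      rw [map_zero, bc_add, bc_comp, bc_comp, LinearMap.add_apply, LinearMap.comp_apply,
        LinearMap.comp_apply]
      have e3 : bc θ (d q) (bc θ (d (q + 1)) z') = 0 := LinearMap.congr_fun (hdd q) _
      rw [e3, map_zero, add_zero]
      exact hz'
  match q, hq, z, hz with
  | 0, _, z, _ =>
    obtain ⟨z', rfl⟩ := h0.2 z
    refine ⟨bc θ (s 0) z', ?_⟩
    rw [bc_comp]
    rfl
  | q + 1, hq, z, hz =>
    have h2 := h1 q (by omega)
    obtain ⟨z', rfl⟩ := h2.2 z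
    have hz' : bc θ (d q) (bc θ (d (q + 1) ∘ₗ s (q + 1) + s q ∘ₗ d q) z') = 0 := hz
    rw [bc_add, bc_comp, bc_comp, LinearMap.add_apply, LinearMap.comp_apply, LinearMap.comp_apply,
      map_add] at hz'
    have e1 : bc θ (d q) (bc θ (d (q + 1)) (bc θ (s (q + 1)) z')) = 0 :=
      LinearMap.congr_fun (hdd q) _
    rw [e1, zero_add] at hz'
    have e2 : bc θ (d q) z' = 0 := inj q (by omega) z' hz'
    refine ⟨bc θ (s (q + 1)) z', ?_⟩
    rw [bc_add, bc_comp, bc_comp, LinearMap.add_apply, LinearMap.comp_apply, LinearMap.comp_apply,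
      e2, map_zero, add_zero]
    rfl

section nov

variable {k G : Type} [CommRing k] [Group G] {χ : Chr G} (N : NovRing k G χ)

theorem V_sum {ι : Type} (s : Finset ι) (f : ι → N.R) (a : ℝ) (h : ∀ i ∈ s, N.V a (f i)) :
    N.V a (∑ i ∈ s, f i) := by
  classical
  induction s using Finset.induction_on with
  | empty => simpa using N.V_zero a
  | insert i s hi ih =>
    rw [Finset.sum_insert hi]
    exact N.V_add _ _ _ (h i (Finset.mem_insert_self _ _))
      (ih fun i' hi' => h i' (Finset.mem_insert_of_mem hi'))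

/-- Row vectors times `1 - B`. -/
theorem bij_matrix (Y : Type) [Fintype Y] [DecidableEq Y] (B : Matrix Y Y N.R) (δ : ℝ)
    (hδ : 0 < δ) (hB : ∀ x y, N.V δ (B x y)) :
    Function.Bijective (fun v : Y → N.R => Matrix.vecMul v (1 - B)) := by
  obtain ⟨u, hu⟩ := N.inv Y B δ hδ hB
  have h1 : (1 - B) * (u⁻¹ : (Matrix Y Y N.R)ˣ) = 1 := by
    rw [← hu]
    exact u.mul_inv
  have h2 : (u⁻¹ : (Matrix Y Y N.R)ˣ) * (1 - B) = 1 := by
    rw [← hu]
    exact u.inv_mul
  rw [Function.bijective_iff_has_inverse]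
  refine ⟨fun w => Matrix.vecMul w (u⁻¹ : (Matrix Y Y N.R)ˣ), ?_, ?_⟩
  · intro v
    simp only [Matrix.vecMul_vecMul, h1, Matrix.vecMul_one]
  · intro w
    simp only [Matrix.vecMul_vecMul, h2, Matrix.vecMul_one]

/-- A positive lower bound for the positions of finitely many positive vectors. -/
theorem exists_pos {K : Type} [Group K] (ψ : Chr K) {X Y : Type} [Finite X]
    (v : X → (Y →₀ MonoidAlgebra k K)) (hv : ∀ x, PosV ψ (v x)) :
    ∃ δ : ℝ, 0 < δ ∧ ∀ x y, ∀ g ∈ (v x y).coeff.support, δ ≤ val ψ g := by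
  classical
  have h1 : ∀ᶠ δ : ℝ in nhdsWithin 0 (Set.Ioi 0), ∀ x, ∀ y ∈ (v x).support,
      ∀ g ∈ (v x y).coeff.support, δ ≤ val ψ g := by
    rw [Filter.eventually_all]
    intro x
    rw [Filter.eventually_all_finset]
    intro y _
    rw [Filter.eventually_all_finset]
    intro g hg
    have := hv x y g hg
    filter_upwards [Ioc_mem_nhdsGT this] with δ hδ using hδ.2
  obtain ⟨δ, h2, h3⟩ := (h1.and self_mem_nhdsWithin).exists
  refine ⟨δ, h3, fun x y g hg => ?_⟩
  by_cases hy : y ∈ (v x).support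
  · exact h2 x y hy g hg
  · rw [Finsupp.notMem_support_iff.1 hy] at hg
    simp at hg

/-- The value of the image of an element of the group ring. -/
theorem V_of_pos {K : Type} [Group K] (j : K →* G) (a : ℝ) (f : MonoidAlgebra k K)
    (hf : ∀ g ∈ f.coeff.support, a ≤ val (χ.res j) g) : N.V a (N.ι.comp (gmap k j) f) := by
  have h1 : f = ∑ g ∈ f.coeff.support, MonoidAlgebra.single g (f.coeff g) :=
    (MonoidAlgebra.sum_coeff_single f).symm
  rw [h1, map_sum]
  apply V_sum
  intro g hg
  have h2 : (N.ι.comp (gmap k j)) (MonoidAlgebra.single g (f.coeff g)) =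
      N.ι (MonoidAlgebra.single (j g) (f.coeff g)) := by
    simp
  rw [h2]
  exact N.V_mono _ _ _ (hf g hg) (N.V_ι _ _)

theorem bij_of_pos {K : Type} [Group K] (j : K →* G) {X : Type} [Finite X]
    (A : (X →₀ MonoidAlgebra k K) →ₗ[MonoidAlgebra k K] (X →₀ MonoidAlgebra k K))
    (hA : ∀ x, PosV (χ.res j) (single x 1 - A (single x 1))) :
    Function.Bijective (bc (N.ι.comp (gmap k j)) A) := by
  classical
  have := Fintype.ofFinite X
  obtain ⟨δ, hδ, hpos⟩ := exists_pos (χ.res j) (fun x => single x 1 - A (single x 1)) hA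
  let B : Matrix X X N.R := fun x y =>
    N.ι.comp (gmap k j) ((single x 1 - A (single x 1) : X →₀ MonoidAlgebra k K) y)
  have hB := bij_matrix N X B δ hδ (fun x y => V_of_pos N j δ _ (hpos x y))
  let e : (X →₀ N.R) ≃ (X → N.R) := Finsupp.equivFunOnFinite
  have key : ∀ z : X →₀ N.R, e (bc (N.ι.comp (gmap k j)) A z) = Matrix.vecMul (e z) (1 - B) := by
    intro z
    induction z using Finsupp.induction_linear with
    | zero => 
      rw [map_zero]
      have : e 0 = 0 := rfl
      rw [this, Matrix.zero_vecMul]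
    | add v w hv hw =>
      have h1 : ∀ a b : X →₀ N.R, e (a + b) = e a + e b := fun _ _ => rfl
      rw [map_add, h1, h1, Matrix.add_vecMul, hv, hw]
    | single x r =>
      have h1 : e (single x r) = Pi.single x r := by
        ext y
        simp [e, Finsupp.single_eq_pi_single]
      rw [h1]
      ext y
      rw [bc_single, Matrix.single_vecMul]
      have h2 : (1 - B) x y = N.ι.comp (gmap k j) (A (single x 1) y) := by
        simp only [B, Matrix.sub_apply, Finsupp.sub_apply, map_sub]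
        have h3 : (N.ι.comp (gmap k j)) ((single x 1 : X →₀ MonoidAlgebra k K) y) =
            (1 : Matrix X X N.R) x y := by
          rw [Finsupp.single_apply, Matrix.one_apply]
          split_ifs
          · rw [map_one]
          · rw [map_zero]
        rw [h3, sub_sub_cancel]
      change (r • mp (N.ι.comp (gmap k j)) (A (single x 1))) y = r * (1 - B) x y
      rw [h2, Finsupp.smul_apply, mp_apply, smul_eq_mul]
  have h4 : (bc (N.ι.comp (gmap k j)) A : (X →₀ N.R) → (X →₀ N.R)) =
      e.symm ∘ (fun v => Matrix.vecMul v (1 - B)) ∘ e := by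
    funext z
    rw [Function.comp_apply, Function.comp_apply, ← key, Equiv.symm_apply_apply]
  rw [h4]
  exact e.symm.bijective.comp (hB.comp e.bijective)

end nov

/-- Module N1. -/
theorem n1 : N1Statement := by
  intro k S K _ _ _ χ N j n F hF hP
  obtain ⟨s, hs0, hs1⟩ := hP
  have fin0 := hF 0 (Nat.zero_le n)
  refine exact_of_bij _ F.d F.isCx s n ?_ ?_
  · exact bij_of_pos N j _ hs0
  · intro q hq
    have := hF (q + 1) hq
    apply bij_of_pos N j
    intro x
    have := hs1 q hq x
    rw [sub_sub] at this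
    exact this

end Pool.Agent.Lib.MP_b1a3a4_al.MVS.H12
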