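import Pool.Agent.Lib.MP_b1a3a4_al.MVS.Interfaces

/-!
# Module N2 (2.4): exactness over the Novikov type ring gives push maps
-/

set_option linter.all false

namespace Pool.Agent.Lib.MP_b1a3a4_al.MVS.H12

open Finsupp

section prj

variable {k K G : Type} [CommRing k] [Group K] [Group G] (j : K →* G)
  (hj : Function.Injective j)

/-- Projection of the group ring of `G` to the group ring of a subgroup. -/
noncomputable def prj : MonoidAlgebra k G →+ MonoidAlgebra k K where
  toFun f := MonoidAlgebra.ofCoeff (f.coeff.comapDomain j hj.injOn)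
  map_zero' := by
    apply MonoidAlgebra.coeff_injective
    ext x
    simp [MonoidAlgebra.coeff_ofCoeff, Finsupp.comapDomain_apply]
  map_add' f g := by
    apply MonoidAlgebra.coeff_injective
    ext x
    simp [MonoidAlgebra.coeff_ofCoeff, Finsupp.comapDomain_apply]

theorem prj_coeff (f : MonoidAlgebra k G) (x : K) : (prj j hj f).coeff x = f.coeff (j x) := by
  simp [prj, MonoidAlgebra.coeff_ofCoeff, Finsupp.comapDomain_apply]

theorem prj_mem_support (f : MonoidAlgebra k G) (x : K) (hx : x ∈ (prj j hj f).coeff.support) :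
    j x ∈ f.coeff.support := by
  rw [Finsupp.mem_support_iff] at hx ⊢
  rwa [prj_coeff] at hx

theorem prj_mul_left (a : MonoidAlgebra k K) (f : MonoidAlgebra k G) :
    prj j hj (gmap k j a * f) = a * prj j hj f := by
  induction a using MonoidAlgebra.induction_linear with
  | zero => simp
  | add a b ha hb => simp only [map_add, add_mul, ha, hb]
  | single x c =>
    apply MonoidAlgebra.coeff_injective
    ext y
    rw [prj_coeff]
    have h1 : gmap k j (MonoidAlgebra.single x c) = MonoidAlgebra.single (j x) c := by simp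
    rw [h1, MonoidAlgebra.coeff_single_mul_apply, MonoidAlgebra.coeff_single_mul_apply, prj_coeff]
    simp

theorem prj_mul_right (a : MonoidAlgebra k K) (f : MonoidAlgebra k G) :
    prj j hj (f * gmap k j a) = prj j hj f * a := by
  induction a using MonoidAlgebra.induction_linear with
  | zero => simp
  | add a b ha hb => simp only [map_add, mul_add, ha, hb]
  | single x c =>
    apply MonoidAlgebra.coeff_injective
    ext y
    rw [prj_coeff]
    have h1 : gmap k j (MonoidAlgebra.single x c) = MonoidAlgebra.single (j x) c := by simp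
    rw [h1, MonoidAlgebra.coeff_mul_single_apply, MonoidAlgebra.coeff_mul_single_apply, prj_coeff]
    simp

theorem prj_one : prj j hj (1 : MonoidAlgebra k G) = 1 := by
  have := prj_mul_left j hj (1 : MonoidAlgebra k K) 1
  apply MonoidAlgebra.coeff_injective
  classical
  ext y
  rw [prj_coeff, MonoidAlgebra.one_def, MonoidAlgebra.one_def, MonoidAlgebra.coeff_single,
    MonoidAlgebra.coeff_single, Finsupp.single_apply, Finsupp.single_apply]
  have : (1 = j y) ↔ (1 = y) := by
    constructor
    · intro h
      apply hj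
      rw [← h, map_one]
    · rintro rfl
      rw [map_one]
  simp only [this]

/-- coordinatewise projection -/
noncomputable def prv {Y : Type} : (Y →₀ MonoidAlgebra k G) →+ (Y →₀ MonoidAlgebra k K) :=
  Finsupp.mapRange.addMonoidHom (prj j hj)

theorem prv_apply {Y : Type} (v : Y →₀ MonoidAlgebra k G) (y : Y) :
    prv j hj v y = prj j hj (v y) := by simp [prv]

theorem prv_single {Y : Type} (y : Y) (a : MonoidAlgebra k G) :
    prv j hj (single y a) = single y (prj j hj a) := by
  simp [prv]

theorem prv_bc {Y Z : Type} (A : (Y →₀ MonoidAlgebra k K) →ₗ[MonoidAlgebra k K]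
    (Z →₀ MonoidAlgebra k K)) (v : Y →₀ MonoidAlgebra k G) :
    prv j hj (bc (gmap k j) A v) = A (prv j hj v) := by
  induction v using Finsupp.induction_linear with
  | zero => simp
  | add v w hv hw => simp only [map_add, hv, hw]
  | single y a =>
    rw [bc_single, prv_single]
    have h1 : (single y (prj j hj a) : Y →₀ MonoidAlgebra k K) = prj j hj a • single y 1 := by
      simp
    rw [h1, A.map_smul]
    ext1 z
    rw [prv_apply, Finsupp.smul_apply, Finsupp.smul_apply, mp_apply, smul_eq_mul, smul_eq_mul,
      prj_mul_right]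

theorem prv_lc {X Y : Type} (σ : X → (Y →₀ MonoidAlgebra k G)) (w : X →₀ MonoidAlgebra k K) :
    prv j hj (Finsupp.linearCombination _ σ (mp (gmap k j) w)) =
      Finsupp.linearCombination _ (fun x => prv j hj (σ x)) w := by
  induction w using Finsupp.induction_linear with
  | zero => simp
  | add v w hv hw => simp only [map_add, mp_add, hv, hw]
  | single x a =>
    rw [mp_single, Finsupp.linearCombination_single, Finsupp.linearCombination_single]
    ext1 z
    rw [prv_apply, Finsupp.smul_apply, Finsupp.smul_apply, smul_eq_mul, smul_eq_mul,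
      prj_mul_left, prv_apply]

end prj

section calculus

variable {Λ R R' : Type} [Ring Λ] [Ring R] [Ring R'] (θ : Λ →+* R) (θ' : R →+* R')
  {X Y Z : Type}

theorem mp_bc (A : (X →₀ Λ) →ₗ[Λ] (Y →₀ Λ)) (v : X →₀ R) :
    mp θ' (bc θ A v) = bc (θ'.comp θ) A (mp θ' v) := by
  induction v using Finsupp.induction_linear with
  | zero => simp
  | add v w hv hw => simp only [map_add, mp_add, hv, hw]
  | single x a =>
    rw [bc_single, mp_single, bc_single, mp_smul, mp_mp]

theorem mp_lc (σ : X → (Y →₀ R)) (w : X →₀ R) :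
    mp θ' (Finsupp.linearCombination R σ w) =
      Finsupp.linearCombination R' (fun x => mp θ' (σ x)) (mp θ' w) := by
  induction w using Finsupp.induction_linear with
  | zero => simp
  | add v w hv hw => simp only [map_add, mp_add, hv, hw]
  | single x a =>
    rw [mp_single, Finsupp.linearCombination_single, Finsupp.linearCombination_single, mp_smul]

end calculus

section seq

variable {k G : Type} [CommRing k] [Group G] {χ : Chr G} (N : NovRing k G χ)
  (rep : (ℕ → MonoidAlgebra k G) → N.R → Prop)
  (h2 : ∀ a, rep (fun _ => a) (N.ι a))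
  (h3 : ∀ u u' r r', rep u r → rep u' r' → rep (fun i => u i + u' i) (r + r'))
  (h4 : ∀ u u' r r', rep u r → rep u' r' → rep (fun i => u i * u' i) (r * r'))

/-- The ring of representations. -/
def repRing : Subring ((ℕ → MonoidAlgebra k G) × N.R) where
  carrier := {p | rep p.1 p.2}
  mul_mem' := by
    rintro ⟨u, r⟩ ⟨u', r'⟩ h h'
    exact h4 u u' r r' h h'
  one_mem' := by
    have := h2 1
    rw [map_one] at this
    exact this
  add_mem' := by
    rintro ⟨u, r⟩ ⟨u', r'⟩ h h'
    exact h3 u u' r r' h h'
  zero_mem' := by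
    have := h2 0
    rw [map_zero] at this
    exact this
  neg_mem' := by
    rintro ⟨u, r⟩ h
    have h5 := h2 (-1)
    have h6 := h4 _ _ _ _ h5 h
    rw [map_neg, map_one] at h6
    simp only [neg_mul, one_mul] at h6
    exact h6

end seq

/-- Module N2. -/
theorem n2 (hSplit : SplitStatement) : N2Statement := by
  intro k G _ _ χ N hN K _ j hj n F hF hE
  obtain ⟨rep, h1, h2, h3, h4, h5⟩ := hN
  have hcx : IsCx (bcD (N.ι.comp (gmap k j)) F.d) := bcD_isCx _ F.isCx
  obtain ⟨s, hs0, hs1⟩ := (hSplit N.R F.X _ (n + 1) hcx).1 hE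
  let P := repRing N rep h2 h3 h4
  let p2 : P →+* N.R := (RingHom.snd _ _).comp P.subtype
  let ev : ℕ → P →+* MonoidAlgebra k G := fun i =>
    (Pi.evalRingHom (fun _ : ℕ => MonoidAlgebra k G) i).comp ((RingHom.fst _ _).comp P.subtype)
  let cst : MonoidAlgebra k G →+* ((ℕ → MonoidAlgebra k G) × N.R) :=
    RingHom.prod (Pi.constRingHom ℕ (MonoidAlgebra k G)) N.ι
  let ι' : MonoidAlgebra k G →+* P := cst.codRestrict P (fun a => h2 a)
  have e1 : p2.comp ι' = N.ι := by
    ext a <;> rfl
  have e2 : ∀ i, (ev i).comp ι' = RingHom.id _ := by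
    intro i
    ext a <;> rfl
  classical
  -- a section
  let sec : N.R → P := fun r => if r = 0 then 0 else ⟨((h1 r).choose, r), (h1 r).choose_spec⟩
  have sec0 : sec 0 = 0 := by simp [sec]
  have sec2 : ∀ r, p2 (sec r) = r := by
    intro r
    by_cases hr : r = 0
    · subst hr
      rw [sec0, map_zero]
    · simp only [sec, hr, if_false]
      rfl
  let σ : ∀ q, F.X q → (F.X (q + 1) →₀ P) := fun q x => (s q (single x 1)).mapRange sec sec0
  have hσ : ∀ q x, mp p2 (σ q x) = s q (single x 1) := by
    intro q x
    ext y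
    simp only [mp_apply, σ, Finsupp.mapRange_apply, sec2]
  let θ : MonoidAlgebra k K →+* P := ι'.comp (gmap k j)
  have θ1 : p2.comp θ = N.ι.comp (gmap k j) := by
    rw [← e1]; rfl
  have θ2 : ∀ i, (ev i).comp θ = gmap k j := by
    intro i
    change ((ev i).comp ι').comp (gmap k j) = _
    rw [e2 i]; rfl
  -- the error terms
  let E0 : ∀ x : F.X 0, F.X 0 →₀ P := fun x => single x 1 - bc θ (F.d 0) (σ 0 x)
  let E1 : ∀ q, ∀ x : F.X (q + 1), F.X (q + 1) →₀ P := fun q x => single x 1 -
    bc θ (F.d (q + 1)) (σ (q + 1) x) -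
    Finsupp.linearCombination P (σ q) (mp θ (F.d q (single x 1)))
  have E0z : ∀ x, mp p2 (E0 x) = 0 := by
    intro x
    simp only [E0, mp_sub, mp_single, map_one]
    rw [mp_bc, θ1, hσ, sub_eq_zero]
    exact (hs0 (Nat.succ_pos n) _).symm
  have E1z : ∀ q, q + 1 ≤ n → ∀ x, mp p2 (E1 q x) = 0 := by
    intro q hq x
    simp only [E1, mp_sub, mp_single, map_one]
    rw [mp_bc, mp_lc, θ1, mp_mp, θ1]
    have h6 := hs1 q (by omega) (single x 1)
    have h7 : Finsupp.linearCombination N.R (fun x => mp p2 (σ q x))
        (mp (N.ι.comp (gmap k j)) (F.d q (single x 1))) =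
        s q (bcD (N.ι.comp (gmap k j)) F.d q (single x 1)) := by
      have h8 : (fun x => mp p2 (σ q x)) = fun x => s q (single x 1) := by
        funext x
        exact hσ q x
      rw [h8]
      have h9 : Finsupp.linearCombination N.R (fun x => s q (single x 1)) = s q := by
        apply lin_ext
        intro x
        simp
      rw [h9]
      congr 1
      change _ = bc _ _ _
      rw [bc_single, one_smul]
    rw [h7, hσ]
    have h8 : (bc (N.ι.comp (gmap k j)) (F.d (q + 1))) (s (q + 1) (single x 1)) =
      bcD (N.ι.comp (gmap k j)) F.d (q + 1) (s (q + 1) (single x 1)) := rfl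
    rw [h8, sub_sub, sub_eq_zero]
    exact h6.symm
  -- the error terms tend to infinity
  have key : ∀ p : P, p2 p = 0 → ∀ᶠ i in Filter.atTop,
      ∀ g ∈ (ev i p).coeff.support, (1 : ℝ) ≤ val χ g := by
    rintro ⟨⟨u, r⟩, hp⟩ h0
    have h0' : r = 0 := h0
    subst h0'
    obtain ⟨i₀, hi₀⟩ := h5 u hp 1
    exact Filter.eventually_atTop.2 ⟨i₀, hi₀⟩
  have key0 : ∀ᶠ i in Filter.atTop, ∀ x y : F.X 0,
      ∀ g ∈ (ev i (E0 x y)).coeff.support, (1 : ℝ) ≤ val χ g := by
    have := hF 0 (Nat.zero_le n)
    rw [Filter.eventually_all]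
    intro x
    rw [Filter.eventually_all]
    intro y
    apply key
    have := DFunLike.congr_fun (E0z x) y
    simpa using this
  have key1 : ∀ᶠ i in Filter.atTop, ∀ q : _root_.Fin n, ∀ x y : F.X ((q : ℕ) + 1),
      ∀ g ∈ (ev i (E1 q x y)).coeff.support, (1 : ℝ) ≤ val χ g := by
    rw [Filter.eventually_all]
    intro q
    have := hF ((q : ℕ) + 1) q.2
    rw [Filter.eventually_all]
    intro x
    rw [Filter.eventually_all]
    intro y
    apply key
    have := DFunLike.congr_fun (E1z q q.2 x) y
    simpa using this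
  obtain ⟨i, hi0, hi1⟩ := (key0.and key1).exists
  -- the push maps
  refine ⟨fun q => Finsupp.linearCombination _ (fun x => prv j hj (mp (ev i) (σ q x))), ?_, ?_⟩
  · intro x y g hg
    rw [val_res]
    have h6 : single x 1 - F.d 0 (Finsupp.linearCombination (MonoidAlgebra k K)
        (fun x => prv j hj (mp (ev i) (σ 0 x))) (single x 1)) =
        prv j hj (mp (ev i) (E0 x)) := by
      simp only [E0, mp_sub, mp_single, map_one, map_sub, Finsupp.linearCombination_single,
        one_smul]
      rw [mp_bc, θ2, prv_bc, prv_single, prj_one]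
    rw [h6, prv_apply, mp_apply] at hg
    have := hi0 x y (j g) (prj_mem_support j hj _ g hg)
    linarith
  · intro q hq x y g hg
    rw [val_res]
    have h6 : single x 1 - F.d (q + 1) (Finsupp.linearCombination (MonoidAlgebra k K)
        (fun x => prv j hj (mp (ev i) (σ (q + 1) x))) (single x 1)) -
        Finsupp.linearCombination (MonoidAlgebra k K)
        (fun x => prv j hj (mp (ev i) (σ q x))) (F.d q (single x 1)) =
        prv j hj (mp (ev i) (E1 q x)) := by
      simp only [E1, mp_sub, mp_single, map_one, map_sub]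
      rw [mp_bc, θ2, prv_bc, prv_single, prj_one, mp_lc, mp_mp, θ2, prv_lc,
        Finsupp.linearCombination_single, one_smul]
    rw [h6, prv_apply, mp_apply] at hg
    have := hi1 ⟨q, hq⟩ x y (j g) (prj_mem_support j hj _ g hg)
    linarith

end Pool.Agent.Lib.MP_b1a3a4_al.MVS.H12
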