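import Pool.Agent.Lib.MP_b1a3a4_al.MVS.Interfaces

/-!
# Module WALK: the walking argument in (5.5)
-/

set_option linter.all false

namespace Pool.Agent.Lib.MP_b1a3a4_al.MVS.H12

open Finset

/-- `sqrt` is below its tangent lines. -/
theorem sqrt_le_tangent (a s : ℝ) (ha : 0 ≤ a) (hs : 0 < s) :
    Real.sqrt a ≤ (a + s ^ 2) / (2 * s) := by
  rw [le_div_iff₀ (by positivity)]
  have h1 := Real.sq_sqrt ha
  nlinarith [sq_nonneg (Real.sqrt a - s)]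

/-- The function `g`. -/
noncomputable def gfun (c M : ℝ) (j : ℤ) (x : ℝ) : ℝ := x - c * Real.sqrt ((j : ℝ) ^ 2 + M ^ 2)

theorem gfun_step (c M : ℝ) (hc : 0 < c) (hM : 0 < M) (j j' : ℤ) (x δ μ : ℝ)
    (h1 : |(-(c * j / Real.sqrt ((j : ℝ) ^ 2 + M ^ 2)) - μ)| * |(j' : ℝ)| ≤ δ / 4)
    (h2 : c * (j' : ℝ) ^ 2 / (2 * M) ≤ δ / 4) :
    gfun c M j x + δ / 2 ≤ gfun c M (j + j') (x + δ - μ * j') := by
  unfold gfun
  set s := Real.sqrt ((j : ℝ) ^ 2 + M ^ 2) with hs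
  have hs0 : 0 < s := Real.sqrt_pos.2 (by positivity)
  have hs2 : s ^ 2 = (j : ℝ) ^ 2 + M ^ 2 := Real.sq_sqrt (by positivity)
  have hMs : M ≤ s := by
    rw [hs]
    apply Real.le_sqrt_of_sq_le
    nlinarith [sq_nonneg (j : ℝ)]
  have h3 := sqrt_le_tangent (((j + j' : ℤ) : ℝ) ^ 2 + M ^ 2) s (by positivity) hs0
  have h4 : ((((j + j' : ℤ) : ℝ) ^ 2 + M ^ 2) + s ^ 2) / (2 * s) =
      s + j * j' / s + (j' : ℝ) ^ 2 / (2 * s) := by
    push_cast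
    field_simp
    rw [hs2]
    ring
  have h5 : (j' : ℝ) ^ 2 / (2 * s) ≤ (j' : ℝ) ^ 2 / (2 * M) := by
    apply div_le_div_of_nonneg_left (by positivity) (by positivity) (by linarith)
  have h6 : Real.sqrt (((j + j' : ℤ) : ℝ) ^ 2 + M ^ 2) ≤
      s + j * j' / s + (j' : ℝ) ^ 2 / (2 * M) := by
    linarith [h3, h4, h5]
  have h7 : c * Real.sqrt (((j + j' : ℤ) : ℝ) ^ 2 + M ^ 2) ≤
      c * (s + j * j' / s + (j' : ℝ) ^ 2 / (2 * M)) := mul_le_mul_of_nonneg_left h6 hc.le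
  have h8 : c * (s + j * j' / s + (j' : ℝ) ^ 2 / (2 * M)) =
      c * s + (c * j / s) * j' + c * (j' : ℝ) ^ 2 / (2 * M) := by
    field_simp
  have h9 : -(δ / 4) ≤ (-(c * j / s) - μ) * j' := by
    have := neg_abs_le ((-(c * j / s) - μ) * j')
    rw [abs_mul] at this
    linarith
  have h10 : (-(c * j / s) - μ) * j' = -(c * j / s) * j' - μ * j' := by ring
  rw [h10] at h9
  linarith

theorem lam_mem (c M : ℝ) (hc : 0 < c) (hM : 0 < M) (j : ℤ) :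
    -(c * j / Real.sqrt ((j : ℝ) ^ 2 + M ^ 2)) ∈ Set.Icc (-c) c := by
  set s := Real.sqrt ((j : ℝ) ^ 2 + M ^ 2) with hs
  have hs0 : 0 < s := Real.sqrt_pos.2 (by positivity)
  have hjs : |(j : ℝ)| ≤ s := by
    apply Real.abs_le_sqrt
    nlinarith [sq_nonneg M]
  have h1 : |c * j / s| ≤ c := by
    rw [abs_div, abs_mul, abs_of_pos hc, abs_of_pos hs0, div_le_iff₀ hs0]
    exact mul_le_mul_of_nonneg_left hjs hc.le
  have := abs_le.1 h1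
  constructor <;> linarith [this.1, this.2]

/-- Module WALK. -/
theorem walk : WalkStatement := by
  intro H _ P c hc hstep h j₀ x₀ hP T
  choose! δ hδ J hJ using hstep
  -- radii
  let m : ℝ → ℝ := fun μ => ∑ j' ∈ J μ, |(j' : ℝ)|
  have hm : ∀ μ, 0 ≤ m μ := fun μ => Finset.sum_nonneg (fun _ _ => abs_nonneg _)
  have hm' : ∀ μ, ∀ j' ∈ J μ, |(j' : ℝ)| ≤ m μ := fun μ j' hj' =>
    Finset.single_le_sum (f := fun j' : ℤ => |(j' : ℝ)|) (fun _ _ => abs_nonneg _) hj'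
  let r : ℝ → ℝ := fun μ => δ μ / (4 * (m μ + 1))
  have hr : ∀ μ, |μ| ≤ c → 0 < r μ := fun μ hμ => by
    have := hδ μ hμ
    have := hm μ
    positivity
  obtain ⟨Λ, hΛ, hcov⟩ := (isCompact_Icc (a := -c) (b := c)).elim_nhds_subcover
    (fun μ => Metric.ball μ (r μ)) (fun μ hμ => Metric.ball_mem_nhds μ (hr μ (abs_le.2 hμ)))
  have hΛ' : ∀ μ ∈ Λ, |μ| ≤ c := fun μ hμ => abs_le.2 (hΛ μ hμ)
  have hne : Λ.Nonempty := by
    have : (0 : ℝ) ∈ Set.Icc (-c) c := by constructor <;> linarith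
    have := hcov this
    simp only [Set.mem_iUnion] at this
    obtain ⟨μ, hμ, _⟩ := this
    exact ⟨μ, hμ⟩
  -- the constant δ
  let d : ℝ := (Λ.inf' hne δ) / 2
  have hd : 0 < d := by
    have : 0 < Λ.inf' hne δ := by
      rw [Finset.lt_inf'_iff]
      exact fun μ hμ => hδ μ (hΛ' μ hμ)
    positivity
  have hd' : ∀ μ ∈ Λ, d ≤ δ μ / 2 := fun μ hμ => by
    have := Finset.inf'_le δ hμ
    simp only [d]
    linarith
  -- the constant M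
  let M : ℝ := 1 + ∑ μ ∈ Λ, ∑ j' ∈ J μ, 2 * c * (j' : ℝ) ^ 2 / δ μ
  have hterm : ∀ μ ∈ Λ, ∀ j' ∈ J μ, 0 ≤ 2 * c * (j' : ℝ) ^ 2 / δ μ := fun μ hμ j' _ => by
    have := hδ μ (hΛ' μ hμ)
    positivity
  have hM : 0 < M := by
    have : 0 ≤ ∑ μ ∈ Λ, ∑ j' ∈ J μ, 2 * c * (j' : ℝ) ^ 2 / δ μ :=
      Finset.sum_nonneg fun μ hμ => Finset.sum_nonneg fun j' hj' => hterm μ hμ j' hj'
    simp only [M]
    linarith
  have hM' : ∀ μ ∈ Λ, ∀ j' ∈ J μ, c * (j' : ℝ) ^ 2 / (2 * M) ≤ δ μ / 4 := fun μ hμ j' hj' => by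
    have hδμ := hδ μ (hΛ' μ hμ)
    have h1 : 2 * c * (j' : ℝ) ^ 2 / δ μ ≤ M := by
      have h2 : 2 * c * (j' : ℝ) ^ 2 / δ μ ≤ ∑ j' ∈ J μ, 2 * c * (j' : ℝ) ^ 2 / δ μ :=
        Finset.single_le_sum (f := fun j' : ℤ => 2 * c * (j' : ℝ) ^ 2 / δ μ)
          (fun j' hj' => hterm μ hμ j' hj') hj'
      have h3 : ∑ j' ∈ J μ, 2 * c * (j' : ℝ) ^ 2 / δ μ ≤
          ∑ μ ∈ Λ, ∑ j' ∈ J μ, 2 * c * (j' : ℝ) ^ 2 / δ μ :=
        Finset.single_le_sum (f := fun μ => ∑ j' ∈ J μ, 2 * c * (j' : ℝ) ^ 2 / δ μ)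
          (fun μ hμ => Finset.sum_nonneg fun j' hj' => hterm μ hμ j' hj') hμ
      simp only [M]
      linarith
    rw [div_le_iff₀ hδμ] at h1
    rw [div_le_iff₀ (by positivity)]
    linarith
  -- one step
  have step : ∀ (j : ℤ) (x : ℝ) (h : H), P j x h → h ∈ AddSubgroup.closure
      {h' | ∃ (j₂ : ℤ) (x₂ : ℝ), P j₂ x₂ h' ∧ gfun c M j x + d ≤ gfun c M j₂ x₂} := by
    intro j x h hP
    have hl := lam_mem c M hc hM j
    have := hcov hl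
    simp only [Set.mem_iUnion, Metric.mem_ball, Real.dist_eq] at this
    obtain ⟨μ, hμ, hlt⟩ := this
    refine AddSubgroup.closure_mono ?_ (hJ μ (hΛ' μ hμ) j x h hP)
    rintro h' ⟨j', hj', hP'⟩
    refine ⟨_, _, hP', ?_⟩
    have h1 : |(-(c * j / Real.sqrt ((j : ℝ) ^ 2 + M ^ 2)) - μ)| * |(j' : ℝ)| ≤ δ μ / 4 := by
      have h2 : |(-(c * j / Real.sqrt ((j : ℝ) ^ 2 + M ^ 2)) - μ)| * |(j' : ℝ)| ≤
          r μ * (m μ + 1) := by
        apply mul_le_mul hlt.le _ (abs_nonneg _) (hr μ (hΛ' μ hμ)).le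
        linarith [hm' μ j' hj']
      have h3 : r μ * (m μ + 1) = δ μ / 4 := by
        simp only [r]
        have : m μ + 1 ≠ 0 := by linarith [hm μ]
        field_simp
      linarith
    have h4 := gfun_step c M hc hM j j' x (δ μ) μ h1 (hM' μ hμ j' hj')
    linarith [hd' μ hμ]
  -- many steps
  have steps : ∀ N : ℕ, h ∈ AddSubgroup.closure
      {h' | ∃ (j₂ : ℤ) (x₂ : ℝ), P j₂ x₂ h' ∧ gfun c M j₀ x₀ + N * d ≤ gfun c M j₂ x₂} := by
    intro N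
    induction N with
    | zero =>
      apply AddSubgroup.subset_closure
      exact ⟨j₀, x₀, hP, by simp⟩
    | succ N ih =>
      refine (AddSubgroup.closure_le _).2 ?_ ih
      rintro h' ⟨j₂, x₂, hP₂, hg₂⟩
      refine AddSubgroup.closure_mono ?_ (step j₂ x₂ h' hP₂)
      rintro h'' ⟨j₃, x₃, hP₃, hg₃⟩
      refine ⟨j₃, x₃, hP₃, ?_⟩
      push_cast
      linarith
  obtain ⟨N, hN⟩ := exists_nat_gt ((T - gfun c M j₀ x₀) / d)
  refine AddSubgroup.closure_mono ?_ (steps N)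
  rintro h' ⟨j, x, hP', hg⟩
  refine ⟨j, x, hP', ?_⟩
  rw [div_lt_iff₀ hd] at hN
  have h1 : T ≤ gfun c M j x := by linarith
  have h2 : |(j : ℝ)| ≤ Real.sqrt ((j : ℝ) ^ 2 + M ^ 2) := by
    apply Real.abs_le_sqrt
    nlinarith [sq_nonneg M]
  unfold gfun at h1
  have := mul_le_mul_of_nonneg_left h2 hc.le
  linarith

end Pool.Agent.Lib.MP_b1a3a4_al.MVS.H12
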